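import Pool.Agent.W785.FD.Stms

/-! Part FD-L1 of project FD (helper785): points of `V` with small density of `V` at scale `ρ`.
Proof by a Vitali covering. -/

set_option autoImplicit false

open MeasureTheory Metric Set Filter
open scoped ENNReal NNReal Topology

namespace Pool.Agent.W714.FD.L1

open Pool.Agent.W785.FD

theorem main {X : Type*} [MetricSpace X] [ProperSpace X] [MeasurableSpace X] [BorelSpace X]
    (μ : Measure X) (D : ℝ) (hD : Dbl μ D) : S_L1 μ D := by
  intro V _ τ ρ x r hτ hρ hρr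
  have hD1 := hD.one_le
  have hD0 : 0 ≤ D := by linarith
  set F : Set X := {w | w ∈ V ∧ w ∈ ball x r ∧ dens μ V w (2 * ρ) < ENNReal.ofReal τ} with hF
  obtain ⟨u, huF, hdisj, hcov⟩ := Vitali.exists_disjoint_subfamily_covering_enlargement_closedBall
    F (fun z : X => z) (fun _ => ρ / 4) (ρ / 4) (fun _ _ => le_rfl) 4 (by norm_num)
  have hcount : u.Countable := by
    apply hdisj.countable_of_nonempty_interior
    intro z _
    exact ⟨z, ball_subset_interior_closedBall (mem_ball_self (by positivity))⟩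
  have hsub : F ⊆ ⋃ b ∈ u, V ∩ ball b (2 * ρ) := by
    intro w hw
    obtain ⟨b, hb, hwb⟩ := hcov w hw
    have h1 : w ∈ closedBall b (4 * (ρ / 4)) := hwb (mem_closedBall_self (by positivity))
    rw [mem_closedBall] at h1
    rw [mem_iUnion₂]
    refine ⟨b, hb, hw.1, ?_⟩
    rw [mem_ball]
    linarith
  have hball : ∀ b ∈ u, μ (V ∩ ball b (2 * ρ)) ≤
      ENNReal.ofReal (D ^ 3 * τ) * μ (ball b (ρ / 4)) := by
    intro b hb
    have hbF := huF hb
    have h1 : dens μ V b (2 * ρ) < ENNReal.ofReal τ := hbF.2.2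
    unfold dens at h1
    have h2 := (ENNReal.div_le_iff (hD.pos b (2 * ρ) (by positivity)).ne'
      (hD.fin b (2 * ρ)).ne).1 h1.le
    have e1 := hD.dbl b ρ hρ
    have e2 := hD.dbl b (ρ / 2) (by positivity)
    have e3 := hD.dbl b (ρ / 4) (by positivity)
    rw [show 2 * (ρ / 2) = ρ by ring] at e2
    rw [show 2 * (ρ / 4) = ρ / 2 by ring] at e3
    calc μ (V ∩ ball b (2 * ρ)) ≤ ENNReal.ofReal τ * μ (ball b (2 * ρ)) := h2
      _ ≤ ENNReal.ofReal τ * (ENNReal.ofReal D * (ENNReal.ofReal D *
          (ENNReal.ofReal D * μ (ball b (ρ / 4))))) := by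
          gcongr
          refine e1.trans ?_
          gcongr
          refine e2.trans ?_
          gcongr
      _ = ENNReal.ofReal (D ^ 3 * τ) * μ (ball b (ρ / 4)) := by
          rw [ENNReal.ofReal_mul (by positivity), ENNReal.ofReal_pow hD0]
          ring
  have hdisj' : u.PairwiseDisjoint (fun b => ball b (ρ / 4)) :=
    hdisj.mono fun b => ball_subset_closedBall
  calc μ F ≤ μ (⋃ b ∈ u, V ∩ ball b (2 * ρ)) := measure_mono hsub
    _ ≤ ∑' b : u, μ (V ∩ ball (b : X) (2 * ρ)) := measure_biUnion_le μ hcount _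
    _ ≤ ∑' b : u, ENNReal.ofReal (D ^ 3 * τ) * μ (ball (b : X) (ρ / 4)) :=
        ENNReal.tsum_le_tsum fun b => hball b b.2
    _ = ENNReal.ofReal (D ^ 3 * τ) * μ (⋃ b ∈ u, ball b (ρ / 4)) := by
        rw [ENNReal.tsum_mul_left, measure_biUnion hcount hdisj' fun b _ => measurableSet_ball]
    _ ≤ ENNReal.ofReal (D ^ 3 * τ) * μ (ball x (2 * r)) := by
        gcongr
        apply iUnion₂_subset
        intro b hb
        apply ball_subset_ball'
        have : dist b x < r := (huF hb).2.1
        linarith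
    _ ≤ ENNReal.ofReal (D ^ 3 * τ) * (ENNReal.ofReal D * μ (ball x r)) := by
        gcongr
        exact hD.dbl x r (by linarith)
    _ = ENNReal.ofReal (D ^ 4 * τ) * μ (ball x r) := by
        rw [← mul_assoc, ← ENNReal.ofReal_mul (by positivity)]
        congr 2
        ring

end Pool.Agent.W714.FD.L1
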